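import Mathlib
import Pool.Agent.SPR24.Spread

/-!
# Odd `q`: additive differences inside a spread of `Q⁺(4n+3,q)`

Let `S` be a spread of `Q⁺(4n+3,q)`, `q` odd, and let `K` be the set of matrices `M` of order
`2n+2` whose graph `{(My,y)}` is a member of `S` (if `S` contains `{(x,0)}`, these graphs are all
the other members). If `M, N : A → K` are maps on a finite abelian group with `M(t) ≠ N(t)` for
`t ≠ 0` and `M(t) - N(t)` additive in `t`, then `|A| ≤ q^(n+1)`. In particular (`N(t) = M(-t)`)
`K` is not parametrised by an additive plus an even map.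
-/

namespace Pool.Agent.Results.MP_a385fc_co.AdditiveDifferences

open SPR24 Matrix

theorem result {F : Type} [Field F] [Fintype F] (hq : Odd (Fintype.card F))
    (n : ℕ) (hn : 1 ≤ n)
    (S : Set (Submodule F ((Fin (2 * n + 2) → F) × (Fin (2 * n + 2) → F))))
    (hS : IsSpread S)
    {A : Type} [AddCommGroup A] [Finite A]
    (M N : A → Matrix (Fin (2 * n + 2)) (Fin (2 * n + 2)) F)
    (hM : ∀ t, graph (M t) ∈ S) (hN : ∀ t, graph (N t) ∈ S)
    (hne : ∀ t, t ≠ 0 → M t ≠ N t)
    (hadd : ∀ s t, M (s + t) - N (s + t) = (M s - N s) + (M t - N t)) :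
    Nat.card A ≤ Fintype.card F ^ (n + 1) ∧
      ∃ W ∈ S, W ≠ axis F (2 * n + 2) ∧ ∀ t, W ≠ graph (M t) := by
  classical
  obtain ⟨e, hprime, hcardF⟩ := FiniteField.card F (ringChar F)
  have : Fact (ringChar F).Prime := ⟨hprime⟩
  have : CharP F (ringChar F) := ringChar.charP F
  have hp2 : ringChar F ≠ 2 := by
    intro h
    rw [hcardF, h] at hq
    have h1 : Even (2 ^ (e : ℕ)) := (Nat.even_pow.mpr ⟨even_two, e.ne_zero⟩)
    exact (Nat.not_even_iff_odd.mpr hq) h1
  have hcard1 : 1 < Fintype.card F := Fintype.one_lt_card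
  have h0 : M 0 - N 0 = 0 := by
    have h := hadd 0 0
    rw [add_zero] at h
    simpa using h
  let L : A →+ Matrix (Fin (2 * n + 2)) (Fin (2 * n + 2)) F :=
    { toFun := fun t => M t - N t
      map_zero' := h0
      map_add' := hadd }
  have hLne : ∀ t, t ≠ 0 → (L t).det ≠ 0 := fun t ht =>
    det_ne_zero_of_mem hS (hM t) (hN t) (hne t ht)
  have hskew : ∀ t, (L t)ᵀ = -(L t) := by
    intro t
    have h1 := skew_of_graph (hS.1 _ (hM t)).1
    have h2 := skew_of_graph (hS.1 _ (hN t)).1
    change (M t - N t)ᵀ = -(M t - N t)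
    rw [transpose_sub, h1, h2]
    abel
  have hpA : ∀ t : A, ringChar F • t = 0 := by
    intro t
    by_contra h
    apply hLne _ h
    rw [map_nsmul, ← Nat.cast_smul_eq_nsmul F, CharP.cast_eq_zero, zero_smul]
    exact Matrix.det_zero
  let _i : Module (ZMod (ringChar F)) A := AddCommGroup.zmodModule hpA
  have hkey := card_sq_le (p := ringChar F) hp2 L hskew hLne
  rw [Fintype.card_fin] at hkey
  have hb : Nat.card A ≤ Fintype.card F ^ (n + 1) := by
    have h1 : Nat.card A ^ 2 ≤ (Fintype.card F ^ (n + 1)) ^ 2 := by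
      rw [← pow_mul]
      calc Nat.card A ^ 2 ≤ Fintype.card F ^ (2 * n + 2) := hkey
        _ = Fintype.card F ^ ((n + 1) * 2) := by congr 1; ring
    exact (Nat.pow_le_pow_iff_left (by norm_num)).mp h1
  refine ⟨hb, ?_⟩
  by_contra hcon
  push Not at hcon
  -- the members of `S` other than the axis cover all `(x, e₀)` with `x₀ = 0`
  let g : A → (Fin (2 * n + 1) → F) := fun t i => (M t *ᵥ Pi.single 0 1) i.succ
  have hg : Function.Surjective g := by
    intro z
    let x : Fin (2 * n + 2) → F := Fin.cons 0 z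
    let v : (Fin (2 * n + 2) → F) × (Fin (2 * n + 2) → F) := (x, Pi.single 0 1)
    have hv2 : v.2 ≠ 0 := by
      intro h
      have := congrFun h 0
      simp [v] at this
    have hv0 : v ≠ 0 := fun h => hv2 (by rw [h]; rfl)
    have hvq : qf v = 0 := by
      change (x ⬝ᵥ Pi.single 0 1) = 0
      rw [dotProduct_single_one]
      rfl
    obtain ⟨W, ⟨hWS, hvW⟩, -⟩ := hS.2 v hv0 hvq
    have hWne : W ≠ axis F (2 * n + 2) := by
      rintro rfl
      exact hv2 ((mem_axis v).mp hvW)
    obtain ⟨t, ht⟩ := hcon W hWS hWne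
    refine ⟨t, ?_⟩
    rw [ht, mem_graph] at hvW
    funext i
    change (M t *ᵥ v.2) i.succ = z i
    rw [← hvW]
    change x i.succ = z i
    simp only [x, Fin.cons_succ]
  have hc : Fintype.card F ^ (2 * n + 1) ≤ Nat.card A := by
    have h1 := Nat.card_le_card_of_surjective g hg
    rwa [Nat.card_eq_fintype_card, Fintype.card_fun, Fintype.card_fin] at h1
  have h2 : Fintype.card F ^ (n + 1) < Fintype.card F ^ (2 * n + 1) :=
    Nat.pow_lt_pow_right hcard1 (by omega)
  omega

end Pool.Agent.Results.MP_a385fc_co.AdditiveDifferences
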