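import Mathlib
import Pool.Agent.SPR24.Defs
import Pool.Agent.SPR24.Hyp
import Pool.Agent.SPR24.Fix
import Pool.Agent.SPR24.Semi

/-!
# Odd `q`: fixed spaces of isometries preserving a spread of `Q⁺(2m-1,q)`

Let `S` be a spread of `Q⁺(2m-1,q)`, `q` odd, and `g ≠ 1` an isometry mapping members of `S` to
members of `S`. The fixed space `C = ker (g - 1)` has dimension at most `m`. If `C` meets
`im (g - 1)` only in zero (for instance if the order of `g` is prime to `q`) and `dim C ≥ 3`, then
`4` divides `dim C`, some member of `S` is fixed by `g`, and every fixed member meets `C` in a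
subspace of dimension `dim C / 2`.
-/

namespace Pool.Agent.Results.MP_a385fc_co.FixedSpaces

open SPR24

theorem result {F : Type} [Field F] [Fintype F] (hq : Odd (Fintype.card F))
    (m : ℕ) (S : Set (Submodule F ((Fin m → F) × (Fin m → F)))) (hS : IsSpread S)
    (g : EndV F m) (hg : IsAut S g) (hne : ∃ v, g v ≠ v) :
    vdim (fixSpace g) ≤ m ∧
      (IsSemi g → 3 ≤ vdim (fixSpace g) →
        4 ∣ vdim (fixSpace g) ∧ (∃ W ∈ S, Fixes g W) ∧
          ∀ W ∈ S, Fixes g W → 2 * meetDim W (fixSpace g) = vdim (fixSpace g)) := by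
  have h20 := two_ne_zero_of_odd hq
  have hm : 0 < m := by
    apply Nat.pos_of_ne_zero
    rintro rfl
    obtain ⟨v, hv⟩ := hne
    exact hv (Subsingleton.elim _ _)
  have hSp : (hyp F m).Spr m S := hS
  have h := QS.fix_le (X := hyp F m) g h20 hSp
    (spread_nonempty hm hS) finrank_V hg.1 hg.2
    (by obtain ⟨v, hv⟩ := hne; exact fun h => hv (h v))
  rw [← fixSpace_eq] at h
  exact ⟨h, fun hsemi h3 =>
    QS.main_semi (X := hyp F m) g h20 hSp finrank_V hg.1 hg.2 hsemi h3⟩

end Pool.Agent.Results.MP_a385fc_co.FixedSpaces
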