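import Mathlib
import Pool.Agent.SPR24.Defs3
import Pool.Agent.SPR24.Prime2

/-!
# Odd `q`: isometries of prime order preserving a spread of `Q⁺(2m-1,q)`

Let `S` be a spread of `Q⁺(2m-1,q)`, `q` odd, `m ≥ 2`, `r` a prime not dividing `q`, `j` the order
of `q` modulo `r`, and `g ≠ 1` an isometry with `g^r = 1`, mapping members of `S` to members of
`S`; let `c` be the dimension of its fixed space. Then `j` divides `2m - c`; if `c ≥ 3` then `4`
divides `c`, `c ≤ m` and `2j` divides `2m - c`; if `j > m` then `j = 2m - 2` and `c = 2`.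
-/

namespace Pool.Agent.Results.MP_a385fc_co.PrimeOrder

open SPR24

theorem result {F : Type} [Field F] [Fintype F] (hq : Odd (Fintype.card F))
    (m : ℕ) (hm : 2 ≤ m)
    (S : Set (Submodule F ((Fin m → F) × (Fin m → F)))) (hS : IsSpread S)
    (r : ℕ) (hr : r.Prime) (hrq : ¬ r ∣ Fintype.card F)
    (g : EndV F m) (hg : IsAut S g) (hgr : g ^ r = 1) (hne : ∃ v, g v ≠ v)
    (c : ℕ) (hc : vdim (fixSpace g) = c) (j : ℕ) (hj : ordMod F r = j) :
    j ∣ 2 * m - c ∧ (3 ≤ c → 4 ∣ c ∧ c ≤ m ∧ 2 * j ∣ 2 * m - c) ∧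
      (m < j → j = 2 * m - 2 ∧ c = 2) := by
  have : Fact r.Prime := ⟨hr⟩
  have h20 := two_ne_zero_of_odd hq
  have hr0 : (r : F) ≠ 0 := by
    intro h0
    obtain ⟨e, hprime, hcardF⟩ := FiniteField.card F (ringChar F)
    have h1 : ringChar F ∣ r := (ringChar.spec F r).mp h0
    have h2 : ringChar F = r := by
      rcases (Nat.dvd_prime hr).mp h1 with h | h
      · exact absurd h hprime.one_lt.ne'
      · exact h
    apply hrq
    rw [hcardF, h2]
    exact dvd_pow_self _ e.ne_zero
  have hSp : (hyp F m).Spr m S := hS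
  have hmain := QS.main_prime (X := hyp F m) g h20 hr0 hSp (spread_nonempty (by omega) hS)
    finrank_V hg.1 hg.2 hgr (by obtain ⟨v, hv⟩ := hne; exact fun h => hv (h v))
  have hc' : Module.finrank F (LinearMap.ker (g - LinearMap.id)) = c := hc
  have hj' : orderOf ((Fintype.card F : ℕ) : ZMod r) = j := hj
  simp only [hc', hj'] at hmain
  obtain ⟨h1, h2, h3⟩ := hmain
  refine ⟨h1, h2, ?_⟩
  intro hmj
  have h4 := h3 hmj
  by_cases hc1 : c ≤ 1
  · exfalso
    have h5 := order_of_free (m := m) (r := r) hm h20 hr0 g hg.1 hgr (by rw [hc']; exact hc1)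
    rw [hj'] at h5
    obtain ⟨b, hb⟩ := h1
    have hb1 : b = 1 := by
      have hb0 : b ≠ 0 := by rintro rfl; omega
      by_contra hb1
      have h6 : j * 2 ≤ j * b := Nat.mul_le_mul_left j (by omega)
      omega
    rw [hb1] at hb
    omega
  · by_cases hc3 : 3 ≤ c
    · exfalso
      obtain ⟨-, h6, d, hd⟩ := h2 hc3
      have hd0 : d ≠ 0 := by rintro rfl; omega
      have h9 : 2 * j * 1 ≤ 2 * j * d := Nat.mul_le_mul_left _ (by omega)
      omega
    · have hc2 : c = 2 := by omega
      refine ⟨?_, hc2⟩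
      subst hc2
      obtain ⟨b, hb⟩ := h1
      have hb1 : b = 1 := by
        have hb0 : b ≠ 0 := by rintro rfl; omega
        by_contra hb1
        have h6 : j * 2 ≤ j * b := Nat.mul_le_mul_left j (by omega)
        omega
      rw [hb1] at hb
      omega

end Pool.Agent.Results.MP_a385fc_co.PrimeOrder
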