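import Mathlib
import Pool.Agent.SPR24.Defs2
import Pool.Agent.SPR24.Hyp
import Pool.Agent.SPR24.Rank

/-!
# Odd `q`: elementary abelian 2-groups preserving a spread of `Q⁺(2m-1,q)`

Let `S` be a spread of `Q⁺(2m-1,q)`, `q` odd, where `m = 2^a u` with `u ≥ 3` odd. Then every
elementary abelian 2-group of isometries preserving `S` has order at most `2^a`.
-/

namespace Pool.Agent.Results.MP_a385fc_co.TwoRank

open SPR24

theorem result {F : Type} [Field F] [Fintype F] (hq : Odd (Fintype.card F))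
    (a u m : ℕ) (hu : Odd u) (hu3 : 3 ≤ u) (hm : m = 2 ^ a * u)
    (S : Set (Submodule F ((Fin m → F) × (Fin m → F)))) (hS : IsSpread S)
    (A : Finset (EndV F m)) (hA : IsTwoGroup S A) : A.card ≤ 2 ^ a := by
  have h20 := two_ne_zero_of_odd hq
  have hSp : (hyp F m).Spr m S := hS
  exact QS.two_rank h20 hu hu3 a _ (hyp F m) m S hm hSp finrank_V A
    (fun s hs => ⟨(hA.1 s hs).2, (hA.1 s hs).1.1, (hA.1 s hs).1.2⟩) hA.2

end Pool.Agent.Results.MP_a385fc_co.TwoRank
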